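import Pool.Agent.N240.W.Small

set_option autoImplicit false

/-!
# MP_b1773a: Kakeya sets all of whose lines meet a set of small packing dimension

Let `n ≥ 3` and let `K ⊆ ℝ^n` meet, for every direction `e` in a set of positive measure, a line
parallel to `e` which passes through a point of `Z` in a set of positive length (for instance: `K` is
a Kakeya set and the lines spanned by its unit segments meet `Z`).  No regularity and no measurability
is assumed of `K` or of the choice of the lines, and `Z` may be a fractal.  If `Z` has packing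
dimension at most `m` and is covered by the images of countably many maps of class `C^r` defined on
open subsets of `ℝ^k`, then

  `dim_H K ≥ n - m (1 - 1 / k) - 1 / r`.

For an arbitrary set `Z ⊆ ℝ^n` of packing dimension `m` (take `k = n`, `r = ∞` and the identity map)
this is `dim_H K ≥ n - m (1 - 1 / n)`, and for a subset of a `k`-dimensional plane or
`C^∞` submanifold it is `n - m (1 - 1 / k)`; splitting `Z` into `δ`-balls and using the bound for the
lines through one ball gives only `n - m`.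

Proof: at scale `δ` replace `Z` by `M = δ ^ (-m)` points.  By Welzl's theorem on spanning paths of low
crossing number (proved here with the iterated reweighting method; the dual shatter function of
half-spaces on the image of a polynomial map is bounded by Warren's theorem) the points lie on
polygonal curves which every hyperplane crosses at most about
`δ ^ (- 1 / r) M ^ (1 - 1 / k)` times altogether.  The Kakeya maximal function over the tubes which meet
a curve that is crossed `N` times by every hyperplane has norm at most about `N ^ (1 / n)` on `L^n`.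
-/

open MeasureTheory Set Metric Filter
open scoped ENNReal

namespace Pool.Agent.Results.MP_b1773a_an.LinesMeetingSmallSet

/-- Euclidean space `ℝ^n`. -/
abbrev E (n : ℕ) : Type := EuclideanSpace ℝ (Fin n)

/-- The surface measure on the unit sphere. -/
noncomputable def surf (n : ℕ) : Measure (sphere (0 : E n) 1) := (volume : Measure (E n)).toSphere

/-- For every direction `e ∈ S` there is a line parallel to `e` which passes through a point `z` of
`Z` and meets `K` in a set of positive length. -/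
def LinesThrough {n : ℕ} (S : Set (sphere (0 : E n) 1)) (Z K : Set (E n)) : Prop :=
  ∀ e ∈ S, ∃ z ∈ Z, volume {t : ℝ | z + t • (e : E n) ∈ K} ≠ 0

/-- For every `0 < δ < 1` the set `Z` is covered by `C δ^{-m}` closed balls of radius `δ`. -/
def BoxLE {n : ℕ} (m : ℝ) (Z : Set (E n)) : Prop :=
  ∃ C : ℝ, ∀ δ : ℝ, 0 < δ → δ < 1 → ∃ P : Finset (E n),
    (P.card : ℝ) ≤ C * δ ^ (-m) ∧ Z ⊆ ⋃ x ∈ P, closedBall x δ

/-- The packing dimension (the modified upper box dimension) of `Z` is at most `m`. -/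
def PackingDimLE {n : ℕ} (m : ℝ) (Z : Set (E n)) : Prop :=
  ∀ m' > m, ∃ Z' : ℕ → Set (E n), Z ⊆ ⋃ j, Z' j ∧ ∀ j, BoxLE m' (Z' j)

/-- `Z ⊆ ℝ^n` is covered by the images of countably many maps of class `C^r`, defined on open
subsets of `ℝ^k` (`r = ⊤` means `C^∞`). -/
def CoveredBy {n : ℕ} (k : ℕ) (r : ℕ∞) (Z : Set (E n)) : Prop :=
  ∃ (U : ℕ → Set (E k)) (φ : ℕ → E k → E n),
    (∀ j, IsOpen (U j) ∧ ContDiffOn ℝ r (φ j) (U j)) ∧ Z ⊆ ⋃ j, φ j '' U j

theorem finite_order (n k r : ℕ) (m : ℝ) (hn : 3 ≤ n) (hk : 1 ≤ k) (hr : 1 ≤ r) (hm : 0 ≤ m)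
    (S : Set (sphere (0 : E n) 1)) (hS : surf n S ≠ 0) (Z K : Set (E n)) (hZk : CoveredBy k r Z)
    (hZ : PackingDimLE m Z) (hK : LinesThrough S Z K) :
    (n : ℝ≥0∞) ≤ dimH K + ENNReal.ofReal (m * (1 - 1 / k)) + ((r : ℕ∞) : ℝ≥0∞)⁻¹ := by
  obtain ⟨U, φ, hU, hZU⟩ := hZk
  obtain ⟨d, rfl⟩ : ∃ d, n = d + 1 := ⟨n - 1, by omega⟩
  obtain ⟨l, rfl⟩ : ∃ l, k = l + 1 := ⟨k - 1, by omega⟩
  have h := Pool.Agent.N240.W.dim_image (d := d) (l := l) (r := r) (by omega) hr
    (fun j => (hU j).1) (fun j => (hU j).2) hZU hm hZ hS (K := K) hK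
  have hr0 : (0:ℝ) < r := by exact_mod_cast hr
  have hl : 0 ≤ 1 - 1 / ((l + 1 : ℕ) : ℝ) := by
    rw [sub_nonneg, div_le_one (by positivity)]
    push_cast
    have : (0 : ℝ) ≤ l := Nat.cast_nonneg _
    linarith
  have e1 : ((r : ℕ∞) : ℝ≥0∞)⁻¹ = ENNReal.ofReal (1 / (r:ℝ)) := by
    rw [one_div, ENNReal.ofReal_inv_of_pos hr0]
    simp
  calc ((d + 1 : ℕ) : ℝ≥0∞) = ENNReal.ofReal ((d:ℝ) + 1) := by
        rw [ENNReal.ofReal_add (by positivity) (by norm_num)]
        simp
    _ = ENNReal.ofReal (((d:ℝ) + 1 - (m * (1 - 1 / ((l + 1 : ℕ) : ℝ)) + 1 / r)) +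
        (m * (1 - 1 / ((l + 1 : ℕ) : ℝ)) + 1 / r)) := by
        congr 1
        ring
    _ ≤ ENNReal.ofReal ((d:ℝ) + 1 - (m * (1 - 1 / ((l + 1 : ℕ) : ℝ)) + 1 / r)) +
        ENNReal.ofReal (m * (1 - 1 / ((l + 1 : ℕ) : ℝ)) + 1 / r) := ENNReal.ofReal_add_le
    _ ≤ dimH K + ENNReal.ofReal (m * (1 - 1 / ((l + 1 : ℕ) : ℝ)) + 1 / r) := by gcongr
    _ = dimH K + (ENNReal.ofReal (m * (1 - 1 / ((l + 1 : ℕ) : ℝ))) + ((r : ℕ∞) : ℝ≥0∞)⁻¹) := by
        rw [e1, ENNReal.ofReal_add (by positivity) (by positivity)]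
    _ = _ := by rw [add_assoc]

/-- **Kakeya sets whose lines meet a set of packing dimension `m`** on `k`-dimensional manifolds of
class `C^r`: `dim_H K ≥ n - m (1 - 1 / k) - 1 / r`, written as an inequality in `[0, ∞]`, with
`1 / r = 0` for `r = ∞`. -/
theorem result (n k : ℕ) (r : ℕ∞) (m : ℝ) (hn : 3 ≤ n) (hk : 1 ≤ k) (hr : 1 ≤ r) (hm : 0 ≤ m)
    (S : Set (sphere (0 : E n) 1)) (hS : surf n S ≠ 0) (Z K : Set (E n)) (hZk : CoveredBy k r Z)
    (hZ : PackingDimLE m Z) (hK : LinesThrough S Z K) :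
    (n : ℝ≥0∞) ≤ dimH K + ENNReal.ofReal (m * (1 - 1 / k)) + (r : ℝ≥0∞)⁻¹ := by
  induction r using ENat.recTopCoe with
  | coe r => exact finite_order n k r m hn hk (by exact_mod_cast hr) hm S hS Z K hZk hZ hK
  | top =>
    have h3 : ∀ r : ℕ, (n : ℝ≥0∞) ≤
        dimH K + ENNReal.ofReal (m * (1 - 1 / k)) + ((r + 1 : ℕ) : ℝ≥0∞)⁻¹ := by
      intro r
      obtain ⟨U, φ, hU, hZ'⟩ := hZk
      have h4 := finite_order n k (r + 1) m hn hk (by omega) hm S hS Z K
        ⟨U, φ, fun j => ⟨(hU j).1, (hU j).2.of_le (by exact_mod_cast le_top)⟩, hZ'⟩ hZ hK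
      simpa using h4
    have h5 : Tendsto (fun r : ℕ => dimH K + ENNReal.ofReal (m * (1 - 1 / k)) +
        ((r + 1 : ℕ) : ℝ≥0∞)⁻¹) atTop
        (nhds (dimH K + ENNReal.ofReal (m * (1 - 1 / k)) + 0)) := by
      apply Tendsto.const_add
      exact (tendsto_add_atTop_iff_nat 1).2 ENNReal.tendsto_inv_nat_nhds_zero
    have h6 := ge_of_tendsto' h5 h3
    simpa using h6

end Pool.Agent.Results.MP_b1773a_an.LinesMeetingSmallSet
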